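import Mathlib
import Pool.Agent.Work.MP_9a9e71_co.LinearRanks

set_option autoImplicit false

namespace Pool.Agent.Results.MP_9a9e71_co.LinearRanks

open Pool.Agent.Work.MP_9a9e71_co

/-- For every `N ≥ 4` there is a non-null graph on `9 ^ N` vertices whose automorphism group is
transitive and primitive and which has at least `9 ^ N / 324` distinct endomorphism ranks. -/
theorem result (N : ℕ) (hN : 4 ≤ N) :
    ∃ G : SimpleGraph (Fin (9 ^ N)), G ≠ ⊥ ∧
      (∀ x y : Fin (9 ^ N), ∃ φ : G ≃g G, φ x = y) ∧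
      (∀ B : Set (Fin (9 ^ N)),
        (∀ φ : G ≃g G, (⇑φ) '' B = B ∨ Disjoint ((⇑φ) '' B) B) →
          B.Subsingleton ∨ B = Set.univ) ∧
      9 ^ N ≤ 324 * (Set.range (fun φ : G →g G => (Set.range (⇑φ)).ncard)).ncard := by
  obtain ⟨M, rfl⟩ : ∃ M, N = M + 4 := ⟨N - 4, by omega⟩
  have hc : Fintype.card (V (M + 4)) = 9 ^ (M + 4) := card_V (M + 4)
  set G : SimpleGraph (Fin (9 ^ (M + 4))) := (Gam (M + 4)).overFin hc with hG
  let e : Gam (M + 4) ≃g G := (Gam (M + 4)).overFinIso hc
  refine ⟨G, ?_, ?_, ?_, ?_⟩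
  · intro h
    apply Gam_ne_bot (M + 3)
    ext x y
    simp only [SimpleGraph.bot_adj, iff_false]
    intro hxy
    have h1 : G.Adj (e x) (e y) := e.map_rel_iff.mpr hxy
    have h2 : ∀ a b, ¬ G.Adj a b := by
      rw [h]
      intro a b hab
      exact hab
    exact h2 _ _ h1
  · intro x y
    obtain ⟨φ, hφ⟩ := transitive_Gam (M + 4) (e.symm x) (e.symm y)
    refine ⟨(e.symm.trans φ).trans e, ?_⟩
    show e (φ (e.symm x)) = y
    rw [hφ]
    simp
  · intro B hB
    have h1 := block_Gam (M + 4) (e ⁻¹' B) (by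
      intro φ
      have h2 := hB ((e.symm.trans φ).trans e)
      have h3 : (⇑((e.symm.trans φ).trans e)) '' B = e '' (φ '' (e ⁻¹' B)) := by
        ext z
        constructor
        · rintro ⟨b, hb, rfl⟩
          exact ⟨φ (e.symm b), ⟨e.symm b, by simpa using hb, rfl⟩, rfl⟩
        · rintro ⟨_, ⟨a, ha, rfl⟩, rfl⟩
          refine ⟨e a, ha, ?_⟩
          show e (φ (e.symm (e a))) = e (φ a)
          simp
      rw [h3] at h2
      rcases h2 with h2 | h2
      · left
        have h4 := congrArg (fun s => e ⁻¹' s) h2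
        simpa only [Set.preimage_image_eq _ e.injective] using h4
      · right
        rw [Set.disjoint_left] at h2 ⊢
        intro a ha hb
        exact h2 ⟨a, ha, rfl⟩ hb)
    rcases h1 with h1 | h1
    · left
      intro a ha b hb
      have := h1 (show e.symm a ∈ e ⁻¹' B by simpa using ha)
        (show e.symm b ∈ e ⁻¹' B by simpa using hb)
      exact e.symm.injective this
    · right
      rw [Set.eq_univ_iff_forall]
      intro a
      have : e.symm a ∈ e ⁻¹' B := by rw [h1]; trivial
      simpa using this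
  · have h5 := many_ranks M
    have hfin : (Set.range (fun φ : G →g G => (Set.range (⇑φ)).ncard)).Finite := by
      apply (Set.finite_Iic (Nat.card (Fin (9 ^ (M + 4))))).subset
      rintro _ ⟨φ, rfl⟩
      exact Set.ncard_le_card _
    have h6 : Set.range (fun φ : Gam (M + 4) →g Gam (M + 4) => (Set.range (⇑φ)).ncard) ⊆
        Set.range (fun φ : G →g G => (Set.range (⇑φ)).ncard) := by
      rintro _ ⟨φ, rfl⟩
      refine ⟨(e.toHom.comp φ).comp e.symm.toHom, ?_⟩
      have h7 : Set.range (⇑((e.toHom.comp φ).comp e.symm.toHom)) = e '' Set.range (⇑φ) := by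
        ext z
        constructor
        · rintro ⟨a, rfl⟩
          exact ⟨φ (e.symm a), ⟨_, rfl⟩, rfl⟩
        · rintro ⟨_, ⟨a, rfl⟩, rfl⟩
          refine ⟨e a, ?_⟩
          show e (φ (e.symm (e a))) = e (φ a)
          simp
      show (Set.range (⇑((e.toHom.comp φ).comp e.symm.toHom))).ncard = _
      rw [h7, Set.ncard_image_of_injective _ e.injective]
    have h8 := Set.ncard_le_ncard h6 hfin
    omega

end Pool.Agent.Results.MP_9a9e71_co.LinearRanks
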